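import Mathlib

/-!
# A conditionally flat localization of groups that is not an epireflection (MP_52d248_al, Q1)

`L G = ℚ ⊗ G_ab`, the reflection of the category of groups onto the rational vector spaces, is
a localization functor, is right exact and hence conditionally flat, and `ℤ → ℚ` is not surjective.
-/

open CategoryTheory TensorProduct

universe u

namespace Pool.Agent.Results.MP_52d248_al.RationalAbelianization

/-- A localization functor on the category of groups: a functor `L` with a natural transformation
`η : Id → L` such that `L (η_G)` and `η_{L G}` are equal isomorphisms `L G → L L G`. -/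
structure LocalizationFunctor where
  /-- the functor -/
  L : GrpCat.{u} ⥤ GrpCat.{u}
  /-- the coaugmentation -/
  η : 𝟭 GrpCat.{u} ⟶ L
  /-- `L (η_G) = η_{L G}` -/
  map_η : ∀ G : GrpCat.{u}, L.map (η.app G) = η.app (L.obj G)
  /-- and this map is an isomorphism -/
  isIso_η : ∀ G : GrpCat.{u}, IsIso (η.app (L.obj G))

/-- `L` is an epireflection: every `η_G : G → L G` is surjective. -/
def LocalizationFunctor.IsEpireflection (T : LocalizationFunctor.{u}) : Prop :=
  ∀ G : GrpCat.{u}, Function.Surjective (T.η.app G).hom

/-- `1 → N → E → G → 1` is a short exact sequence (an extension). -/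
def IsShortExact {N E G : Type u} [Group N] [Group E] [Group G] (i : N →* E) (p : E →* G) : Prop :=
  Function.Injective i ∧ i.range = p.ker ∧ Function.Surjective p

/-- The extension is `L`-flat: `1 → L N → L E → L G → 1` is again short exact. -/
def LocalizationFunctor.IsFlat (T : LocalizationFunctor.{u}) {N E G : Type u} [Group N] [Group E]
    [Group G] (i : N →* E) (p : E →* G) : Prop :=
  IsShortExact (T.L.map (GrpCat.ofHom i)).hom (T.L.map (GrpCat.ofHom p)).hom

/-- The fibre product `E ×_G H = {(e, h) | p e = f h}`. -/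
def fibreProduct {E G H : Type u} [Group E] [Group G] [Group H] (p : E →* G) (f : H →* G) :
    Subgroup (E × H) :=
  (p.comp (MonoidHom.fst E H)).eqLocus (f.comp (MonoidHom.snd E H))

/-- The projection `E ×_G H → H`, `(e, h) ↦ h`. -/
def pullProj {E G H : Type u} [Group E] [Group G] [Group H] (p : E →* G) (f : H →* G) :
    fibreProduct p f →* H :=
  (MonoidHom.snd E H).comp (fibreProduct p f).subtype

/-- The inclusion `N → E ×_G H`, `n ↦ (i n, 1)`, of the kernel of the pulled-back extension. -/
def pullIncl {N E G H : Type u} [Group N] [Group E] [Group G] [Group H] (i : N →* E) (p : E →* G)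
    (f : H →* G) (hip : ∀ n, p (i n) = 1) : N →* fibreProduct p f :=
  ((MonoidHom.inl E H).comp i).codRestrict (fibreProduct p f) (fun n => by
    change p (i n) = f 1
    rw [hip, map_one])

/-- `L` is conditionally flat: for every `L`-flat extension `1 → N → E → G → 1` and every
homomorphism `f : H → G` the pulled-back extension `1 → N → E ×_G H → H → 1` is `L`-flat. -/
def LocalizationFunctor.IsConditionallyFlat (T : LocalizationFunctor.{u}) : Prop :=
  ∀ (N E G H : Type u) [Group N] [Group E] [Group G] [Group H] (i : N →* E) (p : E →* G)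
    (f : H →* G) (hip : ∀ n, p (i n) = 1),
    IsShortExact i p → T.IsFlat i p → T.IsFlat (pullIncl i p f hip) (pullProj p f)

/-! ### Rationalized abelianization -/

/-- `ℚ ⊗ G_ab` as an additive group. -/
abbrev RA (G : Type u) [Group G] : Type u := ℚ ⊗[ℤ] Additive (Abelianization G)

/-- The `ℤ`-linear map `G_ab → H_ab` induced by a homomorphism. -/
noncomputable def abMap {G H : Type u} [Group G] [Group H] (f : G →* H) :
    Additive (Abelianization G) →ₗ[ℤ] Additive (Abelianization H) :=
  (MonoidHom.toAdditive (Abelianization.map f)).toIntLinearMap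

/-- The induced map `ℚ ⊗ G_ab → ℚ ⊗ H_ab`. -/
noncomputable def raMap {G H : Type u} [Group G] [Group H] (f : G →* H) : RA G →ₗ[ℤ] RA H :=
  (abMap f).lTensor ℚ

/-- The induced map as a homomorphism of multiplicative groups. -/
noncomputable def raHom {G H : Type u} [Group G] [Group H] (f : G →* H) :
    Multiplicative (RA G) →* Multiplicative (RA H) :=
  AddMonoidHom.toMultiplicative (raMap f).toAddMonoidHom

/-- The coaugmentation `G → ℚ ⊗ G_ab`, `g ↦ 1 ⊗ [g]`. -/
noncomputable def raUnit (G : Type u) [Group G] : G →* Multiplicative (RA G) where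
  toFun g := Multiplicative.ofAdd ((1 : ℚ) ⊗ₜ[ℤ] Additive.ofMul (Abelianization.of g))
  map_one' := by
    rw [map_one, ofMul_one, TensorProduct.tmul_zero, ofAdd_zero]
  map_mul' a b := by
    rw [map_mul, ofMul_mul, TensorProduct.tmul_add, ofAdd_add]

theorem abMap_of {G H : Type u} [Group G] [Group H] (f : G →* H) (g : G) :
    abMap f (Additive.ofMul (Abelianization.of g)) = Additive.ofMul (Abelianization.of (f g)) := by
  rfl

theorem abMap_id (G : Type u) [Group G] : abMap (MonoidHom.id G) = LinearMap.id := by
  apply LinearMap.ext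
  intro x
  induction x using Additive.rec with | _ x
  obtain ⟨g, rfl⟩ := QuotientGroup.mk_surjective x
  rfl

theorem abMap_comp {G H K : Type u} [Group G] [Group H] [Group K] (f : G →* H) (g : H →* K) :
    abMap (g.comp f) = (abMap g).comp (abMap f) := by
  apply LinearMap.ext
  intro x
  induction x using Additive.rec with | _ x
  obtain ⟨a, rfl⟩ := QuotientGroup.mk_surjective x
  rfl

/-- The functor `G ↦ ℚ ⊗ G_ab`. -/
noncomputable def raFunctor : GrpCat.{u} ⥤ GrpCat.{u} where
  obj G := GrpCat.of (Multiplicative (RA G))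
  map f := GrpCat.ofHom (raHom f.hom)
  map_id G := by
    apply GrpCat.hom_ext
    apply MonoidHom.ext
    intro x
    change Multiplicative.ofAdd (((abMap (MonoidHom.id G)).lTensor ℚ) (Multiplicative.toAdd x)) = x
    rw [abMap_id, LinearMap.lTensor_id]
    rfl
  map_comp f g := by
    apply GrpCat.hom_ext
    apply MonoidHom.ext
    intro x
    change Multiplicative.ofAdd (((abMap (g.hom.comp f.hom)).lTensor ℚ) (Multiplicative.toAdd x)) = _
    rw [abMap_comp, LinearMap.lTensor_comp]
    rfl

theorem raHom_raUnit {G H : Type u} [Group G] [Group H] (f : G →* H) (g : G) :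
    raHom f (raUnit G g) = raUnit H (f g) := by
  change Multiplicative.ofAdd (((abMap f).lTensor ℚ) ((1 : ℚ) ⊗ₜ[ℤ] Additive.ofMul
    (Abelianization.of g))) = _
  rw [LinearMap.lTensor_tmul, abMap_of]
  rfl

/-- The coaugmentation as a natural transformation. -/
noncomputable def raEta : 𝟭 GrpCat.{u} ⟶ raFunctor.{u} where
  app G := GrpCat.ofHom (raUnit G)
  naturality G H f := by
    ext g
    exact (raHom_raUnit f.hom g).symm

/-! ### `L` is a localization functor -/

/-- For a rational vector space `V`, rational numbers move through an additive map out of `V` in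
`ℚ ⊗ N`. -/
theorem tmul_eq_one_tmul_smul {V N : Type u} [AddCommGroup V] [Module ℚ V] [AddCommGroup N]
    (e : V →+ N) (q : ℚ) (x : V) :
    (q ⊗ₜ[ℤ] e x : ℚ ⊗[ℤ] N) = (1 : ℚ) ⊗ₜ[ℤ] e (q • x) := by
  let f : ℚ →+ ℚ ⊗[ℤ] N :=
    { toFun := fun q => q ⊗ₜ[ℤ] e x
      map_zero' := TensorProduct.zero_tmul _ _
      map_add' := fun a b => TensorProduct.add_tmul _ _ _ }
  let g : ℚ →+ ℚ ⊗[ℤ] N :=
    { toFun := fun q => (1 : ℚ) ⊗ₜ[ℤ] e (q • x)
      map_zero' := by rw [zero_smul, map_zero, TensorProduct.tmul_zero]
      map_add' := fun a b => by rw [add_smul, map_add, TensorProduct.tmul_add] }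
  have hf : f q = q • f 1 := by
    rw [← map_rat_smul f q 1, smul_eq_mul, mul_one]
  have hg : g q = q • g 1 := by
    rw [← map_rat_smul g q 1, smul_eq_mul, mul_one]
  have h1 : f 1 = g 1 := by
    change (1 : ℚ) ⊗ₜ[ℤ] e x = (1 : ℚ) ⊗ₜ[ℤ] e ((1 : ℚ) • x)
    rw [one_smul]
  change f q = g q
  rw [hf, hg, h1]

/-- The isomorphism `M ≃ M^{ab}` for an abelian group `M`, written additively. -/
noncomputable def abEquiv (M : Type u) [AddCommGroup M] :
    M ≃+ Additive (Abelianization (Multiplicative M)) :=
  (AddEquiv.additiveMultiplicative M).symm.trans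
    (MulEquiv.toAdditive (Abelianization.equivOfComm (H := Multiplicative M)))

theorem raUnit_apply (M : Type u) [AddCommGroup M] (x : M) :
    raUnit (Multiplicative M) (Multiplicative.ofAdd x)
      = Multiplicative.ofAdd ((1 : ℚ) ⊗ₜ[ℤ] abEquiv M x) := by
  rfl

/-- For a rational vector space `V` the coaugmentation `V → ℚ ⊗ V^{ab}` is bijective. -/
theorem raUnit_bijective (V : Type u) [AddCommGroup V] [Module ℚ V] :
    Function.Bijective (raUnit (Multiplicative V)) := by
  constructor
  · -- a left inverse is `q ⊗ n ↦ q • e⁻¹ n`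
    let b : ℚ →+ Additive (Abelianization (Multiplicative V)) →+ V :=
      { toFun := fun q =>
          { toFun := fun n => q • (abEquiv V).symm n
            map_zero' := by rw [map_zero, smul_zero]
            map_add' := fun a b => by rw [map_add, smul_add] }
        map_zero' := by
          ext n
          exact zero_smul _ _
        map_add' := fun a b => by
          ext n
          exact add_smul _ _ _ }
    let B : ℚ ⊗[ℤ] Additive (Abelianization (Multiplicative V)) →+ V :=
      TensorProduct.liftAddHom b (fun r q n => by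
        change (r • q) • (abEquiv V).symm n = q • (abEquiv V).symm (r • n)
        rw [map_zsmul, smul_comm q r, smul_assoc])
    intro x y hxy
    have hx : ∀ z : V, B (Multiplicative.toAdd (raUnit (Multiplicative V) (Multiplicative.ofAdd z)))
        = z := by
      intro z
      rw [raUnit_apply]
      change (1 : ℚ) • (abEquiv V).symm (abEquiv V z) = z
      rw [AddEquiv.symm_apply_apply, one_smul]
    have h1 := hx (Multiplicative.toAdd x)
    have h2 := hx (Multiplicative.toAdd y)
    rw [ofAdd_toAdd] at h1 h2
    apply Multiplicative.toAdd.injective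
    rw [← h1, ← h2, hxy]
  · intro y
    have key : ∀ t : ℚ ⊗[ℤ] Additive (Abelianization (Multiplicative V)),
        ∃ x : V, (1 : ℚ) ⊗ₜ[ℤ] abEquiv V x = t := by
      intro t
      induction t using TensorProduct.induction_on with
      | zero => exact ⟨0, by rw [map_zero, TensorProduct.tmul_zero]⟩
      | tmul q n =>
        obtain ⟨x, rfl⟩ := (abEquiv V).surjective n
        exact ⟨q • x, (tmul_eq_one_tmul_smul (abEquiv V).toAddMonoidHom q x).symm⟩
      | add a b ha hb =>
        obtain ⟨x, rfl⟩ := ha
        obtain ⟨y, rfl⟩ := hb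
        exact ⟨x + y, by rw [map_add, TensorProduct.tmul_add]⟩
    obtain ⟨x, hx⟩ := key (Multiplicative.toAdd y)
    refine ⟨Multiplicative.ofAdd x, ?_⟩
    rw [raUnit_apply, hx, ofAdd_toAdd]

/-- `L (η_G) = η_{L G}`. -/
theorem raHom_raUnit_eq (G : Type u) [Group G] :
    raHom (raUnit G) = raUnit (Multiplicative (RA G)) := by
  apply MonoidHom.ext
  intro y
  have key : ∀ t : RA G, raHom (raUnit G) (Multiplicative.ofAdd t)
      = raUnit (Multiplicative (RA G)) (Multiplicative.ofAdd t) := by
    intro t
    induction t using TensorProduct.induction_on with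
    | zero => rw [ofAdd_zero, map_one, map_one]
    | tmul q n =>
      induction n using Additive.rec with | _ n
      obtain ⟨g, rfl⟩ := QuotientGroup.mk_surjective n
      have h := tmul_eq_one_tmul_smul (abEquiv (RA G)).toAddMonoidHom q
        ((1 : ℚ) ⊗ₜ[ℤ] Additive.ofMul (Abelianization.of g) : RA G)
      rw [TensorProduct.smul_tmul', smul_eq_mul, mul_one] at h
      exact congrArg Multiplicative.ofAdd h
    | add a b ha hb => rw [ofAdd_add, map_mul, map_mul, ha, hb]
  exact key (Multiplicative.toAdd y)

/-- Rationalized abelianization `G ↦ ℚ ⊗ G_ab` as a localization functor. -/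
noncomputable def ratAb : LocalizationFunctor.{u} where
  L := raFunctor
  η := raEta
  map_η G := by
    apply GrpCat.hom_ext
    exact raHom_raUnit_eq G
  isIso_η G := by
    rw [ConcreteCategory.isIso_iff_bijective]
    exact raUnit_bijective (RA G)

/-! ### Right exactness and conditional flatness -/

theorem abMap_surjective {E G : Type u} [Group E] [Group G] (p : E →* G)
    (hp : Function.Surjective p) : Function.Surjective (abMap p) := by
  intro y
  induction y using Additive.rec with | _ y
  obtain ⟨g, rfl⟩ := QuotientGroup.mk_surjective y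
  obtain ⟨e, rfl⟩ := hp g
  exact ⟨Additive.ofMul (Abelianization.of e), rfl⟩

theorem abMap_exact {N E G : Type u} [Group N] [Group E] [Group G] (i : N →* E) (p : E →* G)
    (hr : i.range = p.ker) (hp : Function.Surjective p) :
    Function.Exact (abMap i) (abMap p) := by
  intro y
  constructor
  · induction y using Additive.rec with | _ y
    obtain ⟨e, rfl⟩ := QuotientGroup.mk_surjective y
    intro h
    have h1 : Abelianization.of (p e) = 1 := Additive.ofMul.injective h
    have h2 : p e ∈ commutator G := by
      rw [← Abelianization.ker_of, MonoidHom.mem_ker]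
      exact h1
    have h3 : p e ∈ (commutator E).map p := by
      rw [map_commutator_eq, MonoidHom.range_eq_top.mpr hp, ← commutator_def]
      exact h2
    obtain ⟨c, hc, hce⟩ := h3
    have h4 : e * c⁻¹ ∈ p.ker := by
      rw [MonoidHom.mem_ker, map_mul, map_inv, hce, mul_inv_cancel]
    rw [← hr] at h4
    obtain ⟨n, hn⟩ := h4
    refine ⟨Additive.ofMul (Abelianization.of n), ?_⟩
    have h5 : Abelianization.of c = (1 : Abelianization E) := by
      have : c ∈ (Abelianization.of (G := E)).ker := by
        rw [Abelianization.ker_of]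
        exact hc
      exact this
    have h6 : Abelianization.of (i n) = Abelianization.of e := by
      rw [hn, map_mul, map_inv, h5, inv_one, mul_one]
    exact congrArg Additive.ofMul h6
  · rintro ⟨x, rfl⟩
    induction x using Additive.rec with | _ x
    obtain ⟨n, rfl⟩ := QuotientGroup.mk_surjective x
    have h1 : p (i n) = 1 := by
      rw [← MonoidHom.mem_ker, ← hr]
      exact ⟨n, rfl⟩
    change Additive.ofMul (Abelianization.of (p (i n))) = 0
    rw [h1, map_one, ofMul_one]

/-- Right exactness of `G ↦ ℚ ⊗ G_ab`. -/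
theorem raHom_rightExact {N E G : Type u} [Group N] [Group E] [Group G] (i : N →* E) (p : E →* G)
    (hr : i.range = p.ker) (hp : Function.Surjective p) :
    (raHom i).range = (raHom p).ker ∧ Function.Surjective (raHom p) := by
  have hex := lTensor_exact ℚ (abMap_exact i p hr hp) (abMap_surjective p hp)
  constructor
  · ext y
    rw [MonoidHom.mem_ker, MonoidHom.mem_range]
    constructor
    · rintro ⟨x, rfl⟩
      exact (hex ((raMap i) (Multiplicative.toAdd x))).mpr ⟨Multiplicative.toAdd x, rfl⟩
    · intro h
      obtain ⟨x, hx⟩ := (hex (Multiplicative.toAdd y)).mp h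
      exact ⟨Multiplicative.ofAdd x, hx⟩
  · intro y
    obtain ⟨x, hx⟩ := LinearMap.lTensor_surjective ℚ (abMap_surjective p hp)
      (Multiplicative.toAdd y)
    exact ⟨Multiplicative.ofAdd x, hx⟩

theorem raHom_comp {G H K : Type u} [Group G] [Group H] [Group K] (f : G →* H) (g : H →* K) :
    raHom (g.comp f) = (raHom g).comp (raHom f) := by
  apply MonoidHom.ext
  intro x
  change Multiplicative.ofAdd (((abMap (g.comp f)).lTensor ℚ) (Multiplicative.toAdd x)) = _
  rw [abMap_comp, LinearMap.lTensor_comp]
  rfl

/-- `G ↦ ℚ ⊗ G_ab` is conditionally flat. -/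
theorem ratAb_isConditionallyFlat : ratAb.{u}.IsConditionallyFlat := by
  intro N E G H _ _ _ _ i p f hip hs hflat
  obtain ⟨hi, hr, hp⟩ := hs
  have hinj : Function.Injective (raHom i) := hflat.1
  have hp' : Function.Surjective (pullProj p f) := by
    intro h
    obtain ⟨e, he⟩ := hp (f h)
    exact ⟨⟨(e, h), he⟩, rfl⟩
  have hr' : (pullIncl i p f hip).range = (pullProj p f).ker := by
    ext x
    rw [MonoidHom.mem_ker, MonoidHom.mem_range]
    constructor
    · rintro ⟨n, rfl⟩
      rfl
    · intro hx
      obtain ⟨⟨e, h⟩, heh⟩ := x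
      have hh : h = 1 := hx
      subst hh
      have he : p e = f 1 := heh
      have h2 : e ∈ p.ker := by
        rw [MonoidHom.mem_ker, he, map_one]
      rw [← hr] at h2
      obtain ⟨n, hn⟩ := h2
      refine ⟨n, ?_⟩
      apply Subtype.ext
      exact Prod.ext hn rfl
  have hre := raHom_rightExact (pullIncl i p f hip) (pullProj p f) hr' hp'
  refine ⟨?_, hre.1, hre.2⟩
  change Function.Injective (raHom (pullIncl i p f hip))
  have hcomp : ((MonoidHom.fst E H).comp (fibreProduct p f).subtype).comp (pullIncl i p f hip)
      = i := by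
    apply MonoidHom.ext
    intro n
    rfl
  have hcomp2 := raHom_comp (pullIncl i p f hip)
    ((MonoidHom.fst E H).comp (fibreProduct p f).subtype)
  rw [hcomp] at hcomp2
  rw [hcomp2] at hinj
  exact Function.Injective.of_comp hinj

/-- `ℤ → ℚ ⊗ ℤ` is not surjective: `G ↦ ℚ ⊗ G_ab` is not an epireflection. -/
theorem ratAb_not_isEpireflection : ¬ ratAb.{u}.IsEpireflection := by
  intro h
  have hs : Function.Surjective (raUnit (Multiplicative (ULift.{u} ℤ))) :=
    h (GrpCat.of (Multiplicative (ULift.{u} ℤ)))
  let e := abEquiv (ULift.{u} ℤ)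
  obtain ⟨x, hx⟩ := hs (Multiplicative.ofAdd (((1 : ℚ) / 2) ⊗ₜ[ℤ] e (ULift.up 1)))
  -- the additive map `ℚ ⊗ ℤ → ℚ`, `q ⊗ n ↦ n q`
  let b : ℚ →+ Additive (Abelianization (Multiplicative (ULift.{u} ℤ))) →+ ℚ :=
    { toFun := fun q =>
        { toFun := fun n => q * ((e.symm n).down : ℚ)
          map_zero' := by rw [map_zero]; simp
          map_add' := fun a b => by rw [map_add]; simp [mul_add] }
      map_zero' := by
        ext n
        exact zero_mul _
      map_add' := fun a b => by
        ext n
        exact add_mul _ _ _ }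
  let B : ℚ ⊗[ℤ] Additive (Abelianization (Multiplicative (ULift.{u} ℤ))) →+ ℚ :=
    TensorProduct.liftAddHom b (fun r q n => by
      change (r • q) * ((e.symm n).down : ℚ) = q * ((e.symm (r • n)).down : ℚ)
      rw [map_zsmul, ULift.smul_down, smul_eq_mul, zsmul_eq_mul]
      push_cast
      ring)
  have hx' : (1 : ℚ) ⊗ₜ[ℤ] e (Multiplicative.toAdd x) = ((1 : ℚ) / 2) ⊗ₜ[ℤ] e (ULift.up 1) :=
    Multiplicative.ofAdd.injective hx
  have h1 := congrArg B hx'
  have h2 : B ((1 : ℚ) ⊗ₜ[ℤ] e (Multiplicative.toAdd x))
      = 1 * (((e.symm (e (Multiplicative.toAdd x))).down : ℤ) : ℚ) := rfl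
  have h3 : B (((1 : ℚ) / 2) ⊗ₜ[ℤ] e (ULift.up 1))
      = (1 / 2) * (((e.symm (e (ULift.up 1))).down : ℤ) : ℚ) := rfl
  rw [h2, h3, AddEquiv.symm_apply_apply, AddEquiv.symm_apply_apply] at h1
  have h4 : (2 : ℚ) * (((Multiplicative.toAdd x).down : ℤ) : ℚ) = 1 := by
    rw [one_mul] at h1
    rw [h1]
    norm_num
  have h5 : 2 * ((Multiplicative.toAdd x).down : ℤ) = 1 := by exact_mod_cast h4
  omega

/-- **Answer to Q1 of MP_52d248_al: yes.** There is a localization functor on the category of
groups which is conditionally flat and is not an epireflection (namely `G ↦ ℚ ⊗ G_ab`). -/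
theorem result : ∃ T : LocalizationFunctor.{u}, T.IsConditionallyFlat ∧ ¬ T.IsEpireflection :=
  ⟨ratAb, ratAb_isConditionallyFlat, ratAb_not_isEpireflection⟩

end Pool.Agent.Results.MP_52d248_al.RationalAbelianization
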